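import Mathlib
import Pool.Agent.W792.LL.Stm

/-!
Measurability of `Zf` in the potential.
-/

set_option autoImplicit false
set_option maxHeartbeats 400000

namespace Pool.Agent.W978.LL

open MeasureTheory Filter
open scoped Topology
open Pool.Agent.W792.LL

theorem main : Pool.Agent.W792.LL.S_OPR → Pool.Agent.W792.LL.S_DIA → Pool.Agent.W792.LL.S_ZF →
    Pool.Agent.W792.LL.S_CAY → Pool.Agent.W792.LL.S_MZ := by
  intro hopr hdia hzf hcay d m q hq0 hq1 hm
  have hc1 : ∀ (v : (Fin d → ℤ) → ℝ) (x : Fin d → ℤ), ‖cay (v x)‖ ≤ 1 :=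
    fun v x => (hcay.1 (v x)).le
  have hcm : Measurable cay := hcay.2.1.measurable
  have hpow : ∀ (n : ℕ) (x : Fin d → ℤ), Measurable fun v : (Fin d → ℤ) → ℝ =>
      (((opr m * dia (fun x => cay (v x))) ^ n) (lp.single 2 (0 : Fin d → ℤ) (1 : ℂ))) x := by
    intro n
    induction n with
    | zero =>
      intro x
      simp only [pow_zero, one_apply_eq_self]
      exact measurable_const
    | succ n ih =>
      intro x
      have h1 : ∀ v : (Fin d → ℤ) → ℝ,
          Summable (fun y => UnitAddTorus.mFourierCoeff m (x - y) * (cay (v y) *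
            (((opr m * dia (fun x => cay (v x))) ^ n) (lp.single 2 (0 : Fin d → ℤ) (1 : ℂ))) y)) ∧
          (((opr m * dia (fun x => cay (v x))) ^ (n + 1))
            (lp.single 2 (0 : Fin d → ℤ) (1 : ℂ))) x =
          ∑' y, UnitAddTorus.mFourierCoeff m (x - y) * (cay (v y) *
            (((opr m * dia (fun x => cay (v x))) ^ n) (lp.single 2 (0 : Fin d → ℤ) (1 : ℂ))) y) := by
        intro v
        have h2 := (hopr d m m).1 (dia (fun x => cay (v x))
          (((opr m * dia (fun x => cay (v x))) ^ n) (lp.single 2 (0 : Fin d → ℤ) (1 : ℂ)))) x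
        have h3 := (hdia (Fin d → ℤ) (fun x => cay (v x)) (hc1 v)).1
          (((opr m * dia (fun x => cay (v x))) ^ n) (lp.single 2 (0 : Fin d → ℤ) (1 : ℂ)))
        simp only [h3] at h2
        refine ⟨h2.1, ?_⟩
        rw [← h2.2, pow_succ']
        rfl
      refine measurable_of_tendsto_metrizable' (u := (atTop : Filter (Finset (Fin d → ℤ))))
        (f := fun s v => ∑ y ∈ s, UnitAddTorus.mFourierCoeff m (x - y) * (cay (v y) *
            (((opr m * dia (fun x => cay (v x))) ^ n) (lp.single 2 (0 : Fin d → ℤ) (1 : ℂ))) y))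
        (fun s => ?_) ?_
      · refine Finset.measurable_fun_sum s fun y _ => ?_
        exact ((hcm.comp (measurable_pi_apply y)).mul (ih y)).const_mul _
      · rw [tendsto_pi_nhds]
        intro v
        rw [(h1 v).2]
        exact (h1 v).1.hasSum
  refine measurable_of_tendsto_metrizable (f := fun (n₀ : ℕ) v => ∑ n ∈ Finset.range (n₀ + 1),
      (((opr m * dia (fun x => cay (v x))) ^ n) (lp.single 2 (0 : Fin d → ℤ) (1 : ℂ))) 0)
    (fun n₀ => Finset.measurable_fun_sum _ fun n _ => hpow n 0) ?_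
  rw [tendsto_pi_nhds]
  intro v
  have h4 := (hzf d m m (fun x => cay (v x)) q hq0 hq1 hm hm (hc1 v)).2.2.2.1
  rw [tendsto_iff_norm_sub_tendsto_zero]
  have h5 : Tendsto (fun n₀ : ℕ => q ^ (n₀ + 1) / (1 - q)) atTop (𝓝 0) := by
    have h6 := (tendsto_pow_atTop_nhds_zero_of_lt_one hq0 hq1).comp (tendsto_add_atTop_nat 1)
    simpa using h6.div_const (1 - q)
  refine squeeze_zero (fun _ => norm_nonneg _) (fun n₀ => ?_) h5
  rw [norm_sub_rev]
  exact h4 n₀

end Pool.Agent.W978.LL
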